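import Pool.Agent.Lib.MP_5205a5_lc.NMain

open Pool.Agent.Lib.MP_5205a5_lc

/-- There is a computable Boolean algebra on which, for every positive `n`, some unary relation
has a degree spectrum with exactly `n` elements. -/
theorem Pool.Agent.Results.MP_5205a5_lc.EveryFiniteSpectrum.result :
    ∃ (B : Type) (_ : BooleanAlgebra B), (∃ ν : B → ℕ, IsComputableCopy ν) ∧
      ∀ n : ℕ, 1 ≤ n → ∃ R : Set B, (DgSp R).ncard = n := by
  obtain ⟨ν, hν, -⟩ := exists_copy_computable
  refine ⟨FC, inferInstance, ⟨ν, hν⟩, fun n hn => ?_⟩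
  obtain ⟨G, hG⟩ := finite_spectrum (n - 1)
  exact ⟨Rel G, by rw [hG]; omega⟩
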